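import Pool.Agent.SGL.StmtsS

/-!
# SGL, row BTP: the last step, the vertex `b`
-/

set_option autoImplicit false

namespace Pool.Agent.SGL.H71

open Pool.Agent.SGE Pool.Agent.SGP Pool.Agent.SGY Pool.Agent.SGD

/-- a relation between all consecutive elements is a chain -/
theorem chain_of_forall_con {V : Type} {R : V → V → Prop} : ∀ (C : List V),
    (∀ x y, Con C x y → R x y) → C.IsChain R
  | [], _ => List.IsChain.nil
  | [x], _ => List.IsChain.singleton x
  | x :: y :: L, h => by
    refine List.isChain_cons_cons.2 ⟨h x y ⟨[], L, rfl⟩, ?_⟩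
    refine chain_of_forall_con (y :: L) fun u v huv => h u v ?_
    obtain ⟨P, Q, hPQ⟩ := huv
    exact ⟨x :: P, Q, by rw [hPQ]; rfl⟩

/-- the consecutive elements of a list with three elements -/
theorem con_three {V : Type} {a b c x y : V} (h : Con [a, c, b] x y) :
    (x = a ∧ y = c) ∨ (x = c ∧ y = b) := by
  obtain ⟨P, Q, hPQ⟩ := h
  match P, hPQ with
  | [], hPQ =>
    simp only [List.nil_append, List.cons.injEq] at hPQ
    exact Or.inl ⟨hPQ.1.symm, hPQ.2.1.symm⟩
  | [p], hPQ =>
    simp only [List.cons_append, List.nil_append, List.cons.injEq] at hPQ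
    exact Or.inr ⟨hPQ.2.1.symm, hPQ.2.2.1.symm⟩
  | p :: q :: P', hPQ =>
    have := congrArg List.length hPQ
    simp only [List.length_cons, List.length_nil, List.length_append] at this
    omega

theorem btp (hBND : BndStmt) (hBN2 : Bn2Stmt) : BtpStmt := by
  intro V _ a b c E F K C₁ C₂ h hin
  have hab : a ≠ b := h.nt.ab
  have hnd := h.nt.nd
  have hcb : c ≠ b := by
    simp only [List.nodup_cons, List.mem_cons, List.not_mem_nil, or_false, not_or] at hnd
    exact hnd.2.1
  have hbU : b ∉ K ∪ {a, c} := by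
    rintro (hb | hb)
    · exact (h.sub hb).2.1 rfl
    · rcases hb with hb | hb
      · exact hab hb.symm
      · exact hcb hb.symm
  constructor
  · intro x y hF hx hy
    rcases hBND h.n2 x y ⟨h.nt.fe _ _ _ hF, hx, hy⟩ (fun z hz => by
      have hzb : z = b := h.nt.fn _ _ _ _ hz.1 hF
      exact hbU (hzb ▸ hz.2.2.2)) with h1 | ⟨rfl, rfl⟩
    · exact h1
    · exact absurd hF (((hBN2 h.nt).1 x y ⟨[], [b], rfl⟩).2 b)
  · refine chain_of_forall_con C₂ fun x y hc => ?_
    obtain ⟨⟨hE, hx, hy⟩, hno⟩ := (hBN2 h.n2).1 x y hc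
    by_cases hz : ∃ z, F x y z
    · obtain ⟨z, hz⟩ := hz
      have hzU : z ∉ K ∪ {a, c} := fun hzU => hno z ⟨hz, hx, hy, hzU⟩
      have hrel : Rel E z := ⟨x, h.nt.fe _ _ _ (h.nt.rot _ _ _ (h.nt.rot _ _ _ hz))⟩
      have hzb : z = b := by
        by_contra hzb
        refine hzU (Or.inl (hin ⟨?_, hzb, ?_, hrel⟩))
        · rintro rfl; exact hzU (Or.inr (Or.inl rfl))
        · rintro rfl; exact hzU (Or.inr (Or.inr rfl))
      exact hzb ▸ hz
    · exfalso
      push Not at hz
      rcases hBND h.nt x y hE hz with h1 | ⟨rfl, rfl⟩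
      · rcases con_three h1 with ⟨rfl, rfl⟩ | ⟨rfl, rfl⟩
        · obtain ⟨P, Q, hPQ⟩ := hc
          have hl := h.n2.ls
          have hn := h.n2.nd
          rw [hPQ] at hl hn
          rw [List.getLast?_append_of_ne_nil _ (by simp), List.getLast?_cons_cons] at hl
          have hmem := List.mem_of_getLast? hl
          have := (List.nodup_append.1 hn).2.1
          exact (List.nodup_cons.1 this).1 hmem
        · exact hbU hy
      · exact hbU hx

end Pool.Agent.SGL.H71
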