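import Pool.Agent.SGL.StmtsU

/-!
# SGL, row PSG: the signs for three points of slices
-/

set_option autoImplicit false

namespace Pool.Agent.SGL.H71

open Pool.Agent.SGE Pool.Agent.SGP Pool.Agent.SGY Pool.Agent.SGD Filter

theorem psg (hEVB : EvbStmt) : PsgStmt := by
  intro V s x y
  constructor
  · intro u v w huw hvw hx
    have h := hEVB (x v - x u) (-(x w - x u)) (-(x v - x u) + (x w - x u))
      ((x v - x u) * (y w - y u) - (y v - y u) * (x w - x u)) (s u) (s v) (s w)
      (by linarith) huw hvw
    refine h.mono fun B hB => ?_
    have : o (x u, B ^ s u + y u) (x v, B ^ s v + y v) (x w, B ^ s w + y w) =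
        (x v - x u) * B ^ s w + -(x w - x u) * B ^ s v +
          (-(x v - x u) + (x w - x u)) * B ^ s u +
          ((x v - x u) * (y w - y u) - (y v - y u) * (x w - x u)) := by
      simp only [o]; ring
    rw [this]
    exact hB
  · intro u v w huv hvw hx
    have h := hEVB (x v - x w) (x w - x v) 0
      ((x v - x u) * (y w - y u) - (y v - y u) * (x w - x u)) (s u) (s u) (s v)
      (by linarith) huv huv
    refine h.mono fun B hB => ?_
    have : o (x u, B ^ s u + y u) (x v, B ^ s v + y v) (x w, B ^ s w + y w) =
        (x v - x w) * B ^ s v + (x w - x v) * B ^ s u + 0 * B ^ s u +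
          ((x v - x u) * (y w - y u) - (y v - y u) * (x w - x u)) := by
      rw [← hvw]
      simp only [o]; ring
    rw [this]
    exact hB

end Pool.Agent.SGL.H71
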