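import Pool.Agent.SGL.StmtsA

/-!
# SGL, row SNT: any face may be the outer face
-/

set_option autoImplicit false

namespace Pool.Agent.SGL.H71

open Pool.Agent.SGE Pool.Agent.SGP Pool.Agent.SGY Pool.Agent.SGD

theorem chain_ne {V : Type} {R : V → V → Prop} {y : V} : ∀ (l : List V), y ∉ l →
    (l ++ [y]).IsChain R → (l ++ [y]).IsChain (fun p q => R p q ∧ p ≠ y)
  | [], _, _ => List.IsChain.singleton y
  | [p], hy, h => by
    simp only [List.cons_append, List.nil_append, List.isChain_cons_cons] at h ⊢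
    simp only [List.mem_cons, List.not_mem_nil, or_false] at hy
    exact ⟨⟨h.1, fun e => hy e.symm⟩, List.IsChain.singleton y⟩
  | p :: q :: l, hy, h => by
    simp only [List.cons_append, List.isChain_cons_cons] at h ⊢
    simp only [List.mem_cons, not_or] at hy
    refine ⟨⟨h.1, fun e => hy.1 e.symm⟩, ?_⟩
    have := chain_ne (q :: l) (by simp only [List.mem_cons, not_or]; exact hy.2)
      (by simpa only [List.cons_append] using h.2)
    simpa only [List.cons_append] using this

theorem dF_rot {V : Type} (Φ : V → V → V → Prop) (x y z : V) : dF Φ x y z = dF Φ y z x := by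
  funext u v w
  refine propext ⟨?_, ?_⟩ <;> rintro ⟨h1, h2⟩ <;> refine ⟨h1, fun h3 => h2 ?_⟩ <;> tauto

theorem fan_of_face {V : Type} [Fintype V] {E : V → V → Prop} {Φ : V → V → V → Prop}
    (h : Sph E Φ) (x y z : V) (hf : Φ x y z) : Fan E (dF Φ x y z) z x y := by
  have hxy : E x y := h.fe _ _ _ hf
  have hyz : E y z := h.fe _ _ _ (h.rot _ _ _ hf)
  have hzx : E z x := h.fe _ _ _ (h.rot _ _ _ (h.rot _ _ _ hf))
  have nxy : x ≠ y := fun e => h.irr x (by rw [← e] at hxy; exact hxy)
  have nyz : y ≠ z := fun e => h.irr y (by rw [← e] at hyz; exact hyz)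
  have nzx : z ≠ x := fun e => h.irr z (by rw [← e] at hzx; exact hzx)
  obtain ⟨l, h1, h2, h3⟩ := h.cyc x y hxy
  cases l with
  | nil =>
    simp only [List.nil_append, List.isChain_cons_cons] at h1
    exact absurd (h.fn _ _ _ _ h1.1 hf) nyz
  | cons w l =>
    simp only [List.cons_append, List.isChain_cons_cons] at h1
    obtain ⟨h4, h5⟩ := h1
    have hw : w = z := h.fn _ _ _ _ h4 hf
    subst hw
    have hyl : y ∉ w :: l := (List.nodup_cons.1 h2).1
    refine ⟨w :: l ++ [y], rfl, by rw [List.getLast?_append_of_ne_nil _ (by simp)]; rfl, ?_, ?_, ?_, ?_⟩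
    · refine (chain_ne (w :: l) hyl (by simpa only [List.cons_append] using h5)).imp ?_
      rintro p q ⟨hp, hpy⟩
      refine ⟨hp, ?_⟩
      rintro (⟨-, h6⟩ | ⟨h6, -⟩ | ⟨h6, -⟩)
      · exact hpy h6
      · exact nxy h6
      · exact nzx h6.symm
    · have : (w :: l ++ [y]).Perm (y :: (w :: l)) := List.perm_append_comm
      exact this.nodup_iff.2 h2
    · intro u
      rw [h3 u]
      simp only [List.mem_append, List.mem_cons, List.not_mem_nil, or_false]
      tauto
    · rintro u ⟨-, h6⟩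
      exact h6 (Or.inl ⟨rfl, rfl⟩)

open Classical in
theorem snt : SntStmt := by
  intro V _ E Φ h x y z hf
  have hf2 : Φ y z x := h.rot _ _ _ hf
  have hf3 : Φ z x y := h.rot _ _ _ hf2
  have hxy : E x y := h.fe _ _ _ hf
  have hyz : E y z := h.fe _ _ _ hf2
  have hzx : E z x := h.fe _ _ _ hf3
  have nxy : x ≠ y := fun e => h.irr x (by rw [← e] at hxy; exact hxy)
  have nyz : y ≠ z := fun e => h.irr y (by rw [← e] at hyz; exact hyz)
  have nzx : z ≠ x := fun e => h.irr z (by rw [← e] at hzx; exact hzx)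
  have hrot : ∀ u v w, dF Φ x y z u v w → dF Φ x y z v w u := by
    rintro u v w ⟨h1, h2⟩
    refine ⟨h.rot _ _ _ h1, ?_⟩
    rintro (⟨rfl, rfl⟩ | ⟨rfl, rfl⟩ | ⟨rfl, rfl⟩)
    · exact h2 (Or.inr (Or.inr ⟨h.fn _ _ _ _ (h.rot _ _ _ h1) hf, rfl⟩))
    · exact h2 (Or.inl ⟨h.fn _ _ _ _ (h.rot _ _ _ h1) hf2, rfl⟩)
    · exact h2 (Or.inr (Or.inl ⟨h.fn _ _ _ _ (h.rot _ _ _ h1) hf3, rfl⟩))
  refine
    { ab := nzx.symm
      nd := ?_
      hd := rfl
      ls := rfl
      sym := h.sym
      irr := h.irr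
      rot := hrot
      fn := fun u v w w' h1 h2 => h.fn u v w w' h1.1 h2.1
      fe := fun u v w h1 => h.fe u v w h1.1
      bd := ?_
      int := ?_
      hom := ?_
      con := fun u v huv => h.con x y u v hxy huv }
  · simp only [List.nodup_cons, List.mem_cons, List.not_mem_nil, or_false, not_or,
      List.nodup_nil, not_false_eq_true, and_true]
    exact ⟨⟨nxy, nzx.symm⟩, nyz⟩
  · refine ⟨fan_of_face h x y z hf, ?_, ?_, trivial⟩
    · rw [dF_rot]; exact fan_of_face h y z x hf2
    · rw [dF_rot, dF_rot]; exact fan_of_face h z x y hf3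
  · intro w v hw hE
    obtain ⟨l, h1, h2, h3⟩ := h.cyc w v hE
    refine ⟨l, h1.imp ?_, h2, h3⟩
    intro p q hpq
    simp only [List.mem_cons, List.not_mem_nil, or_false, not_or] at hw
    refine ⟨hpq, ?_⟩
    rintro (⟨h4, -⟩ | ⟨h4, -⟩ | ⟨h4, -⟩)
    · exact hw.1 h4
    · exact hw.2.1 h4
    · exact hw.2.2 h4
  · intro Z hZs hZE hZu
    obtain ⟨A, hA, hZA⟩ := h.hom Z hZs hZE hZu
    have hk2 : ∀ k : ZMod 2, k + k = 0 := by decide
    have k2 : A y z = A x y := (hA _ _ _ hf).symm
    have k3 : A z x = A x y := by rw [← k2]; exact (hA _ _ _ hf2).symm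
    refine ⟨fun u v => if ∃ w, dF Φ x y z u v w then A u v + A x y else 0, ?_, ?_, ?_⟩
    · intro u v w hF
      have h1 : ∃ w, dF Φ x y z u v w := ⟨w, hF⟩
      have h2 : ∃ u, dF Φ x y z v w u := ⟨u, hrot _ _ _ hF⟩
      simp only [if_pos h1, if_pos h2]
      rw [hA u v w hF.1]
    · intro u v hno
      have : ¬ ∃ w, dF Φ x y z u v w := fun ⟨w, hw⟩ => hno w hw
      simp only [if_neg this]
    · intro u v
      have key : ∀ u v, E u v → (if ∃ w, dF Φ x y z u v w then A u v + A x y else 0) =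
          A u v + A x y := by
        intro u v huv
        split_ifs with hw
        · rfl
        · obtain ⟨w, hΦ⟩ := h.ex huv
          have : (u = x ∧ v = y) ∨ (u = y ∧ v = z) ∨ (u = z ∧ v = x) := by
            by_contra hcon
            exact hw ⟨w, hΦ, hcon⟩
          rcases this with ⟨rfl, rfl⟩ | ⟨rfl, rfl⟩ | ⟨rfl, rfl⟩
          · exact (hk2 _).symm
          · rw [k2]; exact (hk2 _).symm
          · rw [k3]; exact (hk2 _).symm
      by_cases huv : E u v
      · simp only [key u v huv, key v u (h.sym _ _ huv)]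
        rw [hZA u v]
        have : A u v + A x y + (A v u + A x y) = A u v + A v u + (A x y + A x y) := by ring
        rw [this, hk2, add_zero]
      · have hZ0 : Z u v = 0 := by
          by_contra h0
          exact huv (hZE u v h0)
        have h1 : ¬ ∃ w, dF Φ x y z u v w := fun ⟨w, hw⟩ => huv (h.fe _ _ _ hw.1)
        have h2 : ¬ ∃ w, dF Φ x y z v u w := fun ⟨w, hw⟩ => huv (h.sym _ _ (h.fe _ _ _ hw.1))
        simp only [if_neg h1, if_neg h2, hZ0, add_zero]

end Pool.Agent.SGL.H71
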